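import Pool.Agent.H47.ST.Targets

/-!
# Placement, irregular case
-/

namespace Pool.Agent.H94.STK

open Finset Pool.Agent.H47.ST

theorem gi_wt (R : ℕ) (W U : ℝ) (e hl r hr : ℕ) (hW : 1 ≤ W) (hU : 1 ≤ U) :
    0 ≤ wt R W U e hl r hr := by
  unfold wt
  have h1 : (0 : ℝ) ≤ if walker hl r hr then W else 1 := by
    split_ifs <;> linarith
  have h2 : (0 : ℝ) ≤ if pend e hl r hr then U else 1 := by
    split_ifs <;> linarith
  exact mul_nonneg (mul_nonneg (Real.exp_pos _).le h1) h2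

theorem gi_ph (R : ℕ) (W U : ℝ) (e : ℕ) (hW : 1 ≤ W) (hU : 1 ≤ U) (B : List ℕ) :
    ∀ hl hr : ℕ, 0 ≤ phC R W U e hl B hr := by
  induction B with
  | nil =>
    intro hl hr
    unfold phC
    exact zero_le_one
  | cons r B ih =>
    intro hl hr
    unfold phC
    exact mul_nonneg (gi_wt R W U e hl r _ hW hU) (ih _ _)

theorem gi_pa (R : ℕ) (W U : ℝ) (e : ℕ) (hW : 1 ≤ W) (hU : 1 ≤ U) (st : List (List ℕ)) :
    0 ≤ PA R W U e st := by
  unfold PA
  apply List.prod_nonneg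
  intro x hx
  obtain ⟨B, -, rfl⟩ := List.mem_map.1 hx
  exact gi_ph R W U e hW hU B 0 0

theorem gi_app (R : ℕ) (W U : ℝ) (e : ℕ) (Ls : List (List ℕ)) (B : List ℕ) (Rs : List (List ℕ)) :
    PA R W U e (Ls ++ B :: Rs) = PA R W U e Ls * (phC R W U e 0 B 0 * PA R W U e Rs) := by
  unfold PA
  rw [List.map_append, List.prod_append, List.map_cons, List.prod_cons]

theorem pf_GI (h1 : T_TOP) (h2 : T_SC) (h3 : T_MG) (h4 : T_IP) : T_GI := by
  intro R W U e Ls X Y Rs C hR hW hU he hQ hh hY hY2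
  have i4 := (h4 e Ls X Y Rs C he hQ hh hY hY2).2
  have i3 := h3 R W U e X Y hR hW hU he
  have i2 := (h2 R W U e (top 0 X) Ls hW hU he).2.1
  have i1 := (h2 R W U e (top 0 Y) (Rs ++ C) hW hU he).1
  have hp := pow_le_pow_right₀ hU i4
  have n1 := gi_pa R W U e hW hU (place e Ls X Y (Rs ++ C))
  refine (mul_le_mul_of_nonneg_left hp n1).trans ?_
  have e1 : place e Ls X Y (Rs ++ C) =
      upL (1 - e) (top 0 X) Ls ++ ins e X Y :: upR e (top 0 Y) (Rs ++ C) := rfl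
  rw [e1, gi_app, gi_app, pow_add, pow_add]
  have m1 := gi_pa R W U e hW hU (upL (1 - e) (top 0 X) Ls)
  have m2 := gi_ph R W U e hW hU (ins e X Y) 0 0
  have m3 := gi_pa R W U e hW hU (upR e (top 0 Y) (Rs ++ C))
  have m4 := gi_pa R W U e hW hU Ls
  have m5 := gi_pa R W U e hW hU (Rs ++ C)
  have u0 : (0 : ℝ) ≤ U := by linarith
  have p1 := pow_nonneg u0 (pops (1 - e) (top 0 X) (mir Ls)).card
  have p2 := pow_nonneg u0 (vis (1 - e) (top 0 Y) X.reverse).card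
  have p3 := pow_nonneg u0 (pops e (top 0 Y) (Rs ++ C)).card
  have key := mul_le_mul i2 (mul_le_mul i3 i1 (mul_nonneg m3 p3)
    ((mul_nonneg m2 p2).trans i3)) (mul_nonneg (mul_nonneg m2 p2) (mul_nonneg m3 p3)) m4
  calc _ = PA R W U e (upL (1 - e) (top 0 X) Ls) *
        U ^ (pops (1 - e) (top 0 X) (mir Ls)).card *
      (phC R W U e 0 (ins e X Y) 0 * U ^ (vis (1 - e) (top 0 Y) X.reverse).card *
        (PA R W U e (upR e (top 0 Y) (Rs ++ C)) *
          U ^ (pops e (top 0 Y) (Rs ++ C)).card)) := by ring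
    _ ≤ _ := key
    _ = _ := by ring

end Pool.Agent.H94.STK
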